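import Pool.Agent.W114.HL.Stm

/-!
# Project HL: the main theorem from the parts
-/

set_option autoImplicit false

namespace Pool.Agent.W308.HL

open Finset Filter Topology
open Pool.Agent.H951R4.OD (ch PI Ex)
open Pool.Agent.W114.PQ (wX EP)
open Pool.Agent.W114.HL

theorem exists_k (κ ε : ℝ) (hε : 0 < ε) : ∃ k : ℕ, 1 ≤ k ∧ κ / 2 ^ k ≤ ε ∧ κ / 2 ^ k < 1 / 2 := by
  have h1 : Tendsto (fun k : ℕ => κ / 2 ^ k) atTop (𝓝 0) := by
    have h2 : Tendsto (fun k : ℕ => ((1 : ℝ) / 2) ^ k) atTop (𝓝 0) :=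
      tendsto_pow_atTop_nhds_zero_of_lt_one (by norm_num) (by norm_num)
    have h3 := h2.const_mul κ
    rw [mul_zero] at h3
    refine h3.congr fun k => ?_
    rw [one_div, inv_pow, ← div_eq_mul_inv]
  have h4 : ∀ᶠ k : ℕ in atTop, κ / 2 ^ k < ε := h1.eventually (gt_mem_nhds hε)
  have h5 : ∀ᶠ k : ℕ in atTop, κ / 2 ^ k < 1 / 2 := h1.eventually (gt_mem_nhds (by norm_num))
  obtain ⟨k, ⟨hk, hk2⟩, hk1⟩ := ((h4.and h5).and (eventually_ge_atTop 1)).exists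
  exact ⟨k, hk1, hk.le, hk2⟩

theorem main (a : S_A) (b : S_B) (c1 : S_C1) (c2 : S_C2) (e : S_E) : S_MAIN := by
  classical
  intro D hD hτ ε hε
  obtain ⟨k, hk1, hk2, hk3⟩ := exists_k D.κ ε hε
  obtain ⟨CA, hCA, hA⟩ := a D hD hτ ε hε k hk1 hk2 hk3
  obtain ⟨CB, hCB, hB⟩ := b D hD ε hε k
  obtain ⟨CC, hCC, hC⟩ := c1 D hD ε hε k
  obtain ⟨CD, hCD, hDD⟩ := c2 D hD ε hε
  obtain ⟨CE, hCE, hE⟩ := e D.c0 hD.c0_pos k
  refine ⟨CA + CB + CC + CD + CE, by positivity, fun X hX => ?_⟩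
  have hXR : (3 : ℝ) ≤ X := by exact_mod_cast hX
  have hlog : 1 ≤ Real.log X := by
    rw [← Real.log_exp 1]
    refine Real.log_le_log (Real.exp_pos _) ?_
    have := Real.exp_one_lt_d9
    linarith
  set SA : Set ℕ := {n : ℕ | 1 ≤ n ∧ n ≤ X ∧ Pass D n ∧ k ≤ (EP D.c0 (wX X) n).card} with hSA
  set SB : Set ℕ := {n : ℕ | 1 ≤ n ∧ n ≤ X ∧ Pass D n ∧ (EP D.c0 (wX X) n).card < k ∧
    ∃ r r' : ℕ, wX X < r ∧ r < r' ∧ Ex D.c0 n r ∧ Ex D.c0 n r'} with hSB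
  set SC : Set ℕ := {n : ℕ | 1 ≤ n ∧ n ≤ X ∧ Pass D n ∧ (EP D.c0 (wX X) n).card < k ∧
    (EP D.c0 (wX X) n).Nonempty ∧
    ∃ r : ℕ, wX X < r ∧ Ex D.c0 n r ∧ ∀ r' : ℕ, wX X < r' → Ex D.c0 n r' → r' = r} with hSC
  set SD : Set ℕ := {n : ℕ | 1 ≤ n ∧ n ≤ X ∧ Pass D n ∧
    ∃ r : ℕ, wX X < r ∧ Ex D.c0 n r ∧ ∀ r' : ℕ, Ex D.c0 n r' → r' = r} with hSD
  set SE : Set ℕ := {n : ℕ | 1 ≤ n ∧ n ≤ X ∧ (EP D.c0 (wX X) n).card < k ∧
    ∀ r : ℕ, wX X < r → ¬ Ex D.c0 n r} with hSE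
  have hfin : ∀ S : Set ℕ, (∀ n ∈ S, n ≤ X) → S.Finite := fun S hS =>
    (Set.finite_Iic X).subset hS
  have fA : SA.Finite := hfin _ fun n hn => hn.2.1
  have fB : SB.Finite := hfin _ fun n hn => hn.2.1
  have fC : SC.Finite := hfin _ fun n hn => hn.2.1
  have fD : SD.Finite := hfin _ fun n hn => hn.2.1
  have fE : SE.Finite := hfin _ fun n hn => hn.2.1
  have hsub : {n : ℕ | 1 ≤ n ∧ n ≤ X ∧ Pass D n} ⊆ (((SA ∪ SB) ∪ SC) ∪ SD) ∪ SE := by
    rintro n ⟨h1n, hnX, hP⟩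
    by_cases hcard : k ≤ (EP D.c0 (wX X) n).card
    · exact Or.inl (Or.inl (Or.inl (Or.inl ⟨h1n, hnX, hP, hcard⟩)))
    · have hcard' : (EP D.c0 (wX X) n).card < k := by omega
      by_cases hex : ∃ r : ℕ, wX X < r ∧ Ex D.c0 n r
      · obtain ⟨r, hr, hrE⟩ := hex
        by_cases huniq : ∀ r' : ℕ, wX X < r' → Ex D.c0 n r' → r' = r
        · by_cases hne : (EP D.c0 (wX X) n).Nonempty
          · exact Or.inl (Or.inl (Or.inr ⟨h1n, hnX, hP, hcard', hne, r, hr, hrE, huniq⟩))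
          · refine Or.inl (Or.inr ⟨h1n, hnX, hP, r, hr, hrE, ?_⟩)
            intro r' hr'
            apply huniq r' _ hr'
            by_contra hle
            apply hne
            refine ⟨r', ?_⟩
            unfold EP
            rw [Finset.mem_filter, Finset.mem_Icc]
            exact ⟨⟨hr'.1.one_lt.le, by omega⟩, hr'⟩
        · push Not at huniq
          obtain ⟨r', hr', hr'E, hne⟩ := huniq
          rcases lt_or_gt_of_ne hne with hlt | hgt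
          · exact Or.inl (Or.inl (Or.inl (Or.inr
              ⟨h1n, hnX, hP, hcard', r', r, hr', hlt, hr'E, hrE⟩)))
          · exact Or.inl (Or.inl (Or.inl (Or.inr
              ⟨h1n, hnX, hP, hcard', r, r', hr, hgt, hrE, hr'E⟩)))
      · push Not at hex
        exact Or.inr ⟨h1n, hnX, hcard', hex⟩
  have hle : {n : ℕ | 1 ≤ n ∧ n ≤ X ∧ Pass D n}.ncard ≤
      SA.ncard + SB.ncard + SC.ncard + SD.ncard + SE.ncard := by
    refine (Set.ncard_le_ncard hsub ((((fA.union fB).union fC).union fD).union fE)).trans ?_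
    refine (Set.ncard_union_le _ _).trans (Nat.add_le_add_right ?_ _)
    refine (Set.ncard_union_le _ _).trans (Nat.add_le_add_right ?_ _)
    refine (Set.ncard_union_le _ _).trans (Nat.add_le_add_right ?_ _)
    exact Set.ncard_union_le _ _
  have hleR : (({n : ℕ | 1 ≤ n ∧ n ≤ X ∧ Pass D n}.ncard : ℕ) : ℝ) ≤
      SA.ncard + SB.ncard + SC.ncard + SD.ncard + SE.ncard := by exact_mod_cast hle
  have h1 := hA X hX
  have h2 := hB X hX
  have h3 := hC X hX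
  have h4 := hDD X hX
  have h5 : (SE.ncard : ℝ) ≤ CE * X * (Real.log X) ^ (ε - 9 / 8) := by
    refine (hE X hX).trans ?_
    refine mul_le_mul_of_nonneg_left ?_ (by positivity)
    exact Real.rpow_le_rpow_of_exponent_le hlog (by linarith)
  calc (({n : ℕ | 1 ≤ n ∧ n ≤ X ∧ Pass D n}.ncard : ℕ) : ℝ)
      ≤ SA.ncard + SB.ncard + SC.ncard + SD.ncard + SE.ncard := hleR
    _ ≤ CA * X * (Real.log X) ^ (ε - 9 / 8) + CB * X * (Real.log X) ^ (ε - 9 / 8) +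
        CC * X * (Real.log X) ^ (ε - 9 / 8) + CD * X * (Real.log X) ^ (ε - 9 / 8) +
        CE * X * (Real.log X) ^ (ε - 9 / 8) := by linarith
    _ = (CA + CB + CC + CD + CE) * X * (Real.log X) ^ (ε - 9 / 8) := by ring

end Pool.Agent.W308.HL
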